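import Pool.Agent.Helper38.VF.Goals2

set_option autoImplicit false

namespace Pool.Agent.Helper95.VF

open Pool.Agent.Helper38.VF

universe u

section

variable {H₁ H₂ : Type u} [NormedAddCommGroup H₁] [InnerProductSpace ℝ H₁]
  [CompleteSpace H₁] [NormedAddCommGroup H₂] [InnerProductSpace ℝ H₂] [CompleteSpace H₂]

/-- `C C† + ε` -/
noncomputable def TT (C : H₁ →L[ℝ] H₂) (ε : ℝ) : H₂ →L[ℝ] H₂ :=
  C.comp (ContinuousLinearMap.adjoint C) + ε • ContinuousLinearMap.id ℝ H₂

lemma TT_apply (C : H₁ →L[ℝ] H₂) (ε : ℝ) (y : H₂) :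
    TT C ε y = C (ContinuousLinearMap.adjoint C y) + ε • y := by
  simp [TT]

lemma TT_inner (C : H₁ →L[ℝ] H₂) (ε : ℝ) (y : H₂) :
    inner ℝ (TT C ε y) y = ‖ContinuousLinearMap.adjoint C y‖ ^ 2 + ε * ‖y‖ ^ 2 := by
  rw [TT_apply, inner_add_left, inner_smul_left, ← ContinuousLinearMap.adjoint_inner_right,
    real_inner_self_eq_norm_sq, real_inner_self_eq_norm_sq]
  simp

lemma TT_coer (C : H₁ →L[ℝ] H₂) {ε : ℝ} (y : H₂) :
    ε * ‖y‖ ≤ ‖TT C ε y‖ := by
  by_cases hy : ‖y‖ = 0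
  · rw [hy]; simp
  · have hy0 : 0 < ‖y‖ := lt_of_le_of_ne (norm_nonneg _) (Ne.symm hy)
    have h1 : ε * ‖y‖ ^ 2 ≤ ‖TT C ε y‖ * ‖y‖ := by
      have h2 := TT_inner C ε y
      have h3 := real_inner_le_norm (TT C ε y) y
      have h4 : 0 ≤ ‖ContinuousLinearMap.adjoint C y‖ ^ 2 := by positivity
      linarith
    have h5 : (ε * ‖y‖) * ‖y‖ ≤ ‖TT C ε y‖ * ‖y‖ := by
      calc (ε * ‖y‖) * ‖y‖ = ε * ‖y‖ ^ 2 := by ring
        _ ≤ _ := h1
    exact le_of_mul_le_mul_right h5 hy0

lemma TT_bij (C : H₁ →L[ℝ] H₂) {ε : ℝ} (hε : 0 < ε) : Function.Bijective (TT C ε) := by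
  rw [ContinuousLinearMap.bijective_iff_dense_range_and_antilipschitz]
  constructor
  · rw [Submodule.topologicalClosure_eq_top_iff, Submodule.eq_bot_iff]
    intro z hz
    rw [Submodule.mem_orthogonal] at hz
    have h1 := hz (TT C ε z) ⟨z, rfl⟩
    rw [TT_inner] at h1
    have h2 : 0 ≤ ‖ContinuousLinearMap.adjoint C z‖ ^ 2 := by positivity
    have h3 : 0 ≤ ε * ‖z‖ ^ 2 := by positivity
    have h4 : ε * ‖z‖ ^ 2 = 0 := by linarith
    have h5 : ‖z‖ ^ 2 = 0 := by
      rcases mul_eq_zero.mp h4 with h | h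
      · exact absurd h hε.ne'
      · exact h
    exact norm_eq_zero.mp (pow_eq_zero_iff (two_ne_zero) |>.mp h5)
  · refine ⟨Real.toNNReal ε⁻¹, ?_⟩
    apply AddMonoidHomClass.antilipschitz_of_bound
    intro x
    rw [Real.coe_toNNReal _ (by positivity)]
    have := TT_coer C (ε := ε) x
    rw [inv_mul_eq_div, le_div_iff₀ hε]
    linarith

/-- the inverse -/
noncomputable def SI (C : H₁ →L[ℝ] H₂) {ε : ℝ} (hε : 0 < ε) : H₂ →L[ℝ] H₂ :=
  ((ContinuousLinearEquiv.ofBijective (TT C ε)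
    (LinearMap.ker_eq_bot.mpr (TT_bij C hε).1)
    (LinearMap.range_eq_top.mpr (TT_bij C hε).2)).symm : H₂ →L[ℝ] H₂)

lemma TT_SI (C : H₁ →L[ℝ] H₂) {ε : ℝ} (hε : 0 < ε) (y : H₂) : TT C ε (SI C hε y) = y := by
  unfold SI
  exact ContinuousLinearEquiv.ofBijective_apply_symm_apply _ _ _ y

lemma SI_TT (C : H₁ →L[ℝ] H₂) {ε : ℝ} (hε : 0 < ε) (y : H₂) : SI C hε (TT C ε y) = y := by
  unfold SI
  exact ContinuousLinearEquiv.ofBijective_symm_apply_apply _ _ _ y

lemma SI_norm (C : H₁ →L[ℝ] H₂) {ε : ℝ} (hε : 0 < ε) (y : H₂) : ε * ‖SI C hε y‖ ≤ ‖y‖ := by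
  have := TT_coer C (ε := ε) (SI C hε y)
  rwa [TT_SI] at this

lemma SI_CC (C : H₁ →L[ℝ] H₂) {ε : ℝ} (hε : 0 < ε) (y : H₂) :
    SI C hε (C (ContinuousLinearMap.adjoint C y)) = y - ε • SI C hε y := by
  have h1 : C (ContinuousLinearMap.adjoint C y) = TT C ε y - ε • y := by
    rw [TT_apply]; abel
  rw [h1, map_sub, SI_TT, map_smul]

lemma dense_CC (C : H₁ →L[ℝ] H₂) (hC : DenseRange C) :
    DenseRange (C.comp (ContinuousLinearMap.adjoint C)) := by
  have h : (LinearMap.range ((C.comp (ContinuousLinearMap.adjoint C)) : H₂ →ₗ[ℝ] H₂)).topologicalClosure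
      = ⊤ := by
    rw [Submodule.topologicalClosure_eq_top_iff, Submodule.eq_bot_iff]
    intro z hz
    rw [Submodule.mem_orthogonal] at hz
    have h1 := hz (C (ContinuousLinearMap.adjoint C z)) ⟨z, rfl⟩
    rw [← ContinuousLinearMap.adjoint_inner_right, real_inner_self_eq_norm_sq] at h1
    have h2 : ContinuousLinearMap.adjoint C z = 0 :=
      norm_eq_zero.mp (pow_eq_zero_iff (two_ne_zero) |>.mp h1)
    have h3 : ∀ w : H₂, inner ℝ z w = (0 : ℝ) := by
      intro w
      have hcl : IsClosed {w : H₂ | inner ℝ z w = (0 : ℝ)} :=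
        isClosed_eq (by fun_prop) continuous_const
      have hsub : Set.range C ⊆ {w : H₂ | inner ℝ z w = (0 : ℝ)} := by
        rintro _ ⟨x, rfl⟩
        simp only [Set.mem_ofPred_eq]
        rw [← ContinuousLinearMap.adjoint_inner_left, h2, inner_zero_left]
      have := closure_minimal hsub hcl
      exact this (hC w)
    exact inner_self_eq_zero.mp (h3 z)
  intro y
  have h2 : y ∈ (LinearMap.range ((C.comp (ContinuousLinearMap.adjoint C)) : H₂ →ₗ[ℝ] H₂)).topologicalClosure := by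
    rw [h]; trivial
  exact h2

end

theorem tr2 : Tr2Stmt.{u} := by
  intro H₁ H₂ _ _ _ _ _ _ C hC k v η hη
  have hd := dense_CC C hC
  have hex : ∀ j : Fin k, ∃ w : H₂, ‖v j - C (ContinuousLinearMap.adjoint C w)‖ * ‖v j‖ ≤ η / 2 := by
    intro j
    have hpos : 0 < η / (2 * (‖v j‖ + 1)) := by positivity
    obtain ⟨w, hw⟩ := hd.exists_dist_lt (v j) hpos
    refine ⟨w, ?_⟩
    rw [dist_eq_norm] at hw
    have h1 : ‖v j - C (ContinuousLinearMap.adjoint C w)‖ ≤ η / (2 * (‖v j‖ + 1)) := hw.le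
    calc ‖v j - C (ContinuousLinearMap.adjoint C w)‖ * ‖v j‖
        ≤ η / (2 * (‖v j‖ + 1)) * (‖v j‖ + 1) :=
          mul_le_mul h1 (by linarith) (norm_nonneg _) (by positivity)
      _ = η / 2 := by
          have : ‖v j‖ + 1 ≠ 0 := by positivity
          field_simp
  choose w hw using hex
  set B : ℝ := ∑ j : Fin k, 2 * ‖w j‖ * ‖v j‖ with hB
  have hB0 : 0 ≤ B := Finset.sum_nonneg (fun j _ => by positivity)
  have hBj : ∀ j, 2 * ‖w j‖ * ‖v j‖ ≤ B := fun j =>
    Finset.single_le_sum (f := fun j : Fin k => 2 * ‖w j‖ * ‖v j‖) (fun j _ => by positivity)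
      (Finset.mem_univ j)
  have hε : 0 < η / (2 * (B + 1)) := by positivity
  set ε : ℝ := η / (2 * (B + 1)) with hεd
  refine ⟨SI C hε, ?_, ?_, ?_⟩
  · intro x
    set y := SI C hε (C x) with hy
    have h1 : C x = TT C ε y := by rw [hy, TT_SI]
    have h2 : inner ℝ (ContinuousLinearMap.adjoint C y) x
        = ‖ContinuousLinearMap.adjoint C y‖ ^ 2 + ε * ‖y‖ ^ 2 := by
      rw [ContinuousLinearMap.adjoint_inner_left, real_inner_comm, h1, TT_inner]
    have h3 : inner ℝ (ContinuousLinearMap.adjoint C y) x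
        ≤ ‖ContinuousLinearMap.adjoint C y‖ * ‖x‖ := real_inner_le_norm _ _
    have h4 : 0 ≤ ε * ‖y‖ ^ 2 := by positivity
    have h5 : ‖ContinuousLinearMap.adjoint C y‖ ≤ ‖x‖ := by
      by_contra hcon
      push Not at hcon
      have h6 : 0 < ‖ContinuousLinearMap.adjoint C y‖ := lt_of_le_of_lt (norm_nonneg _) hcon
      nlinarith
    calc inner ℝ (ContinuousLinearMap.adjoint C y) x
        ≤ ‖ContinuousLinearMap.adjoint C y‖ * ‖x‖ := h3
      _ ≤ ‖x‖ * ‖x‖ := mul_le_mul_of_nonneg_right h5 (norm_nonneg _)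
      _ = ‖x‖ ^ 2 := by ring
  · intro j
    rw [SI_CC, inner_sub_left, real_inner_self_eq_norm_sq]
    have h1 : inner ℝ (ε • SI C hε (v j)) (v j) ≤ η := by
      have e1 : ε • SI C hε (v j) = ε • SI C hε (v j - C (ContinuousLinearMap.adjoint C (w j)))
          + ε • (w j - ε • SI C hε (w j)) := by
        rw [← SI_CC, ← smul_add, ← map_add]
        congr 2
        abel
      rw [e1, inner_add_left]
      have e2 : inner ℝ (ε • SI C hε (v j - C (ContinuousLinearMap.adjoint C (w j)))) (v j)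
          ≤ η / 2 := by
        refine le_trans (real_inner_le_norm _ _) ?_
        rw [norm_smul, Real.norm_of_nonneg hε.le]
        refine le_trans (mul_le_mul_of_nonneg_right (SI_norm C hε _) (norm_nonneg _)) (hw j)
      have e3 : inner ℝ (ε • (w j - ε • SI C hε (w j))) (v j) ≤ η / 2 := by
        refine le_trans (real_inner_le_norm _ _) ?_
        rw [norm_smul, Real.norm_of_nonneg hε.le]
        have e4 : ‖w j - ε • SI C hε (w j)‖ ≤ 2 * ‖w j‖ := by
          refine le_trans (norm_sub_le _ _) ?_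
          rw [norm_smul, Real.norm_of_nonneg hε.le]
          have := SI_norm C hε (w j)
          linarith
        calc ε * ‖w j - ε • SI C hε (w j)‖ * ‖v j‖ ≤ ε * (2 * ‖w j‖) * ‖v j‖ := by gcongr
          _ = ε * (2 * ‖w j‖ * ‖v j‖) := by ring
          _ ≤ ε * (B + 1) := by
              apply mul_le_mul_of_nonneg_left _ hε.le
              have := hBj j
              linarith
          _ = η / 2 := by
              rw [hεd]
              have : B + 1 ≠ 0 := by positivity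
              field_simp
      linarith
    linarith
  · intro U₁ U₂ hU
    have hadj : ∀ y, ContinuousLinearMap.adjoint C (U₂ y) = U₁ (ContinuousLinearMap.adjoint C y) := by
      intro y
      apply ext_inner_right ℝ
      intro x
      rw [ContinuousLinearMap.adjoint_inner_left]
      have h1 : x = U₁ (U₁.symm x) := by simp
      rw [h1, hU, LinearIsometryEquiv.inner_map_map, LinearIsometryEquiv.inner_map_map,
        ContinuousLinearMap.adjoint_inner_left]
    refine ⟨?_, hadj⟩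
    intro y
    have h2 : TT C ε (U₂ (SI C hε y)) = U₂ y := by
      rw [TT_apply, hadj, hU, ← map_smul, ← map_add, ← TT_apply, TT_SI]
    rw [← h2, SI_TT]

end Pool.Agent.Helper95.VF
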